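import Pool.Agent.Lib.MP_d9bae3_nt.NG.FinGB
import Pool.Agent.Lib.MP_d9bae3_nt.NA.NFine

/-!
# Stark's conjecture of order `r` for almost all abelian extensions with a given group

Let `F` be any number field and `A = ∏ ℤ/n_i` a finite abelian group, `A ≠ 0`.  We count **all** the extensions `H/F` with the group `A` (the subfields `H` of an algebraic
closure of `F`, Galois over `F` with a group isomorphic to `A`), in the order of the norm of the product of the ramified primes.  For one hundred per cent of them, for all
admissible `S` and `T`, the L-functions `L_{S,T}(χ,s)` of all non-faithful characters `χ` vanish at `0` to an order greater than `r + K`, where `r` is the number of places in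
`S` which split completely and `K` is arbitrary.  If `A` is not cyclic then for one hundred per cent of the extensions the element `θ` of Stark's conjecture of order `r` is zero
for all `S, T`, and the conjecture holds for `H/F, S, T`.
-/

namespace Pool.Agent.Results.MP_d9bae3_nt.AllExtensions

open NumberField Filter Topology StarkR

/-- Let `F` be a number field and `∏ ℤ/n_i` a nontrivial finite abelian group.  For every `K`, one hundred per cent of the extensions `H` of `F` with the group `∏ ℤ/n_i`, in the
order of the norm of the product of the ramified primes, have the property `FineStark K F H`: the L-functions of the non-faithful characters vanish to an order greater than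
`r + K`, and if the group is not cyclic, `θ = 0` and Stark's conjecture of order `r` holds, for all `S, T`. -/
theorem result (F : Type) [Field F] [NumberField F] (m : ℕ) (n : Fin m → ℕ) [∀ i, NeZero (n i)] (hA : ∃ v : V n, v ≠ 0) (K : ℕ) :
    (∀ X, (AExt F n X).Finite) ∧
    Tendsto (fun X : ℕ => (Set.ncard {H | H ∈ AExt F n X ∧ ∃ _ : NumberField H, FineStark K F H} : ℝ) / ((AExt F n X).ncard : ℝ))
      atTop (𝓝 1) := by
  refine nag_density F n hA (k := K + Module.finrank ℚ F + 1) (by omega) (fun H => ∃ _ : NumberField H, FineStark K F H) ?_
  intro H hNF hGal φ h
  have hcomm : IsMulCommutative Gal(H/F) := ⟨⟨fun σ τ => φ.injective (by rw [map_mul, map_mul, mul_comm])⟩⟩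
  exact ⟨hNF, fineStark_of h⟩

end Pool.Agent.Results.MP_d9bae3_nt.AllExtensions
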